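import Pool.Agent.SQ.T2.Cmp

/-!
# SQ, fourth stage: comparison with skew fields of fractions of quotients with Foelner sets

The same as `SQ.T2.vdim_le_of_datum`, with Foelner sets instead of polynomial growth.
-/

set_option autoImplicit false
set_option linter.unusedSectionVars false

open scoped ComplexConjugate InnerProductSpace Pointwise

namespace SQ.T4

open Singer Singer.Ord Pool.Agent.Helper16.Cmp Pool.Agent.Helper18.SQ SQ.T2

/-! ### data -/

/-- a quotient with Foelner sets and with a skew field of fractions of its group algebra modulo two -/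
structure DatumH (Γ : Type) [Group Γ] (S : Finset Γ) where
  Q : Type
  [grp : Group Q]
  π : Γ →* Q
  sep : ∀ g ∈ S, g ≠ 1 → π g ≠ 1
  halv : Fo.Halving Q
  D : Type
  [div : DivisionRing D]
  [alg : Algebra (ZMod 2) D]
  u : Q →* Dˣ
  li : LinearIndependent (ZMod 2) (fun g : Q => ((u g : Dˣ) : D))

attribute [instance] DatumH.grp DatumH.div DatumH.alg

/-- a datum for a larger set is a datum for a smaller set -/
def DatumH.mono {Γ : Type} [Group Γ] {S S' : Finset Γ} (h : S ⊆ S') (A : DatumH Γ S') : DatumH Γ S :=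
  { A with sep := fun g hg => A.sep g (h hg) }

/-- the action on the skew field by left multiplications -/
def DatumH.act {Γ : Type} [Group Γ] {S : Finset Γ} (A : DatumH Γ S) (g : Γ) : A.D →ₗ[A.Dᵐᵒᵖ] A.D :=
  lm ((A.u (A.π g) : A.Dˣ) : A.D)

section main
variable {Γ : Type} [Group Γ] {κ ι J : Type} [Fintype κ] [Fintype ι] [Fintype J]

/-- injectivity on finitely supported functions -/
theorem DatumH.inj {S : Finset Γ} (A : DatumH Γ S) (c : κ → ι → J → ℤ) (s : J → Γ) (T : Finset ι)
    (hT : ∀ m ∈ SolD c (fun j => A.act (s j)), (∀ i ∈ T, m i = 0) → m = 0)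
    (φ : A.Q × ι →₀ ZMod 2) (h1 : ∀ g k, ∑ i, ∑ j, (c k i j : ZMod 2) * φ (g * A.π (s j), i) = 0)
    (h2 : ∀ g, ∀ i ∈ T, φ (g, i) = 0) : φ = 0 := by
  classical
  -- the finitely supported components
  obtain ⟨F, hF⟩ : ∃ F : Finset A.Q, ∀ g i, φ (g, i) ≠ 0 → g ∈ F :=
    ⟨φ.support.image Prod.fst, fun g i h => Finset.mem_image.2 ⟨(g, i), Finsupp.mem_support_iff.2 h, rfl⟩⟩
  let ψ : ι → (A.Q →₀ ZMod 2) := fun i => Finsupp.onFinset F (fun g => φ (g, i)) (fun g h => hF g i h)
  have hψ : ∀ i g, ψ i g = φ (g, i) := fun i g => rfl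
  -- the map to `D`
  let L : (A.Q →₀ ZMod 2) →ₗ[ZMod 2] A.D := Finsupp.linearCombination (ZMod 2) fun g => ((A.u g⁻¹ : A.Dˣ) : A.D)
  have hLi : Function.Injective L := by
    have h3 : LinearIndependent (ZMod 2) (fun g : A.Q => ((A.u g⁻¹ : A.Dˣ) : A.D)) :=
      A.li.comp (fun g : A.Q => g⁻¹) inv_injective
    exact h3
  -- translations
  have hLt : ∀ (t : A.Q) (f : A.Q →₀ ZMod 2), ((A.u t : A.Dˣ) : A.D) * L f =
      L (f.mapDomain fun g => g * t⁻¹) := by
    intro t f
    induction f using Finsupp.induction_linear with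
    | zero => simp
    | add f g hf hg => rw [map_add, mul_add, hf, hg, Finsupp.mapDomain_add, map_add]
    | single g z =>
      simp only [L]
      rw [Finsupp.linearCombination_single, Finsupp.mapDomain_single, Finsupp.linearCombination_single,
        mul_smul_comm, ← Units.val_mul, ← map_mul]
      congr 3
      simp
  have hmem : (fun i => L (ψ i)) ∈ SolD c (fun j => A.act (s j)) := by
    rw [mem_SolD]
    intro k
    have h4 : ∑ i, ∑ j, c k i j • A.act (s j) (L (ψ i)) =
        L (∑ i, ∑ j, (c k i j : ZMod 2) • (ψ i).mapDomain fun g => g * (A.π (s j))⁻¹) := by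
      rw [map_sum]
      refine Finset.sum_congr rfl fun i _ => ?_
      rw [map_sum]
      refine Finset.sum_congr rfl fun j _ => ?_
      rw [map_smul, ← hLt]
      show c k i j • (((A.u (A.π (s j)) : A.Dˣ) : A.D) * L (ψ i)) = _
      rw [Int.cast_smul_eq_zsmul]
    rw [h4]
    have h5 : (∑ i, ∑ j, (c k i j : ZMod 2) • (ψ i).mapDomain fun g => g * (A.π (s j))⁻¹) = 0 := by
      ext g
      rw [Finsupp.finsetSum_apply, Finsupp.zero_apply, ← h1 g k]
      refine Finset.sum_congr rfl fun i _ => ?_
      rw [Finsupp.finsetSum_apply]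
      refine Finset.sum_congr rfl fun j _ => ?_
      rw [Finsupp.smul_apply, smul_eq_mul]
      congr 1
      have h6 : g = (fun x => x * (A.π (s j))⁻¹) (g * A.π (s j)) := by simp
      conv_lhs => rw [h6]
      rw [Finsupp.mapDomain_apply (mul_left_injective _), hψ]
    rw [h5, map_zero]
  have h7 := hT _ hmem (by
    intro i hi
    have : ψ i = 0 := by
      ext g
      rw [hψ, h2 g i hi]
      rfl
    show L (ψ i) = 0
    rw [this, map_zero])
  ext ⟨g, i⟩
  have h8 : L (ψ i) = 0 := congrFun h7 i
  have h9 : ψ i = 0 := hLi (by rw [h8, map_zero])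
  rw [← hψ, h9]
  rfl

/-- **comparison** -/
theorem vdim_le_of_datum (c : κ → ι → J → ℤ) (s : J → Γ) (W : Submodule ℂ (E Γ ι))
    (hW : (W : Set (E Γ ι)) = SolL c s) (d : ℕ)
    (H : ∀ S : Finset Γ, ∃ A : DatumH Γ S, Module.finrank A.Dᵐᵒᵖ (SolD c (fun j => A.act (s j))) ≤ d) :
    vdim W ≤ d := by
  classical
  -- the coordinates
  obtain ⟨T, hT⟩ : ∃ T : Finset ι, ∀ S : Finset Γ, ∃ A : DatumH Γ S, T.card ≤ d ∧
      ∀ m ∈ SolD c (fun j => A.act (s j)), (∀ i ∈ T, m i = 0) → m = 0 := by
    refine pigeon (fun (T : Finset ι) (S : Finset Γ) => ∃ A : DatumH Γ S, T.card ≤ d ∧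
      ∀ m ∈ SolD c (fun j => A.act (s j)), (∀ i ∈ T, m i = 0) → m = 0) ?_ ?_
    · rintro T S S' hS ⟨A, h1, h2⟩
      exact ⟨A.mono hS, h1, h2⟩
    · intro S
      obtain ⟨A, hA⟩ := H S
      obtain ⟨T, hT1, hT2⟩ := exists_coords (D := A.Dᵐᵒᵖ) (M := SolD c (fun j => A.act (s j)))
        (fun i => ((LinearEquiv.refl A.Dᵐᵒᵖ A.Dᵐᵒᵖ : A.Dᵐᵒᵖ →ₗ[A.Dᵐᵒᵖ] A.Dᵐᵒᵖ).comp
          ((show A.D →ₗ[A.Dᵐᵒᵖ] A.Dᵐᵒᵖ from
            { toFun := fun x => MulOpposite.op x
              map_add' := fun x y => rfl
              map_smul' := fun a x => rfl }).comp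
            ((LinearMap.proj i).comp (SolD c (fun j => A.act (s j))).subtype)))) (by
          intro m hm
          apply Subtype.ext
          funext i
          have := hm i
          exact MulOpposite.op_injective this)
      refine ⟨T, A, hT1.trans hA, fun m hm hm0 => ?_⟩
      have := hT2 ⟨m, hm⟩ (fun i hi => by
        show MulOpposite.op (m i) = 0
        rw [hm0 i hi]
        rfl)
      exact congrArg Subtype.val this
  have hTd : T.card ≤ d := by
    obtain ⟨A, h, -⟩ := hT ∅
    exact h
  -- the intersection with the coordinate subspace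
  have hMW := mdl_solL c s W hW
  have hMT := mdl_off (Γ := Γ) T
  have hzero : vdim (W ⊓ off Γ T) = 0 := by
    let c' : (κ ⊕ ι) → ι → (J ⊕ Unit) → ℤ := fun k i j => match k, j with
      | Sum.inl k, Sum.inl j => c k i j
      | Sum.inl _, Sum.inr _ => 0
      | Sum.inr _, Sum.inl _ => 0
      | Sum.inr i', Sum.inr _ => if i' ∈ T ∧ i' = i then 1 else 0
    let s' : (J ⊕ Unit) → Γ := fun j => match j with
      | Sum.inl j => s j
      | Sum.inr _ => 1
    refine Fo.vdim_eq_zero c' s' (W ⊓ off Γ T) ?_ ?_
    · ext f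
      rw [Submodule.coe_inf]
      constructor
      · rintro ⟨h1, h2⟩
        rw [hW] at h1
        rintro g (k | i')
        · have h3 := h1 g k
          simp only [Fintype.sum_sum_type, c', s', Int.cast_zero, zero_mul, Finset.sum_const_zero, add_zero]
          exact h3
        · simp only [Fintype.sum_sum_type, c', s', Int.cast_zero, zero_mul, Finset.sum_const_zero, zero_add,
            Finset.univ_unique, Finset.sum_singleton, mul_one]
          refine Finset.sum_eq_zero fun i _ => ?_
          split_ifs with h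
          · rw [← h.2, h2 g i' h.1, mul_zero]
          · simp
      · intro h
        refine ⟨?_, ?_⟩
        · rw [hW]
          intro g k
          have h3 := h g (Sum.inl k)
          simp only [Fintype.sum_sum_type, c', s', Int.cast_zero, zero_mul, Finset.sum_const_zero, add_zero] at h3
          exact h3
        · intro g i hi
          have h3 := h g (Sum.inr i)
          simp only [Fintype.sum_sum_type, c', s', Int.cast_zero, zero_mul, Finset.sum_const_zero, zero_add,
            Finset.univ_unique, Finset.sum_singleton, mul_one] at h3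
          rw [Finset.sum_eq_single i] at h3
          · simpa [hi] using h3
          · intro i' _ hne
            rw [if_neg (fun h' => hne h'.2.symm)]
            simp
          · intro h'
            exact absurd (Finset.mem_univ _) h'
    · intro S hS
      obtain ⟨A, -, hA⟩ := hT S
      refine ⟨A.Q, A.grp, A.π, fun g hg => A.sep g hg (fun h => hS (h ▸ hg)), A.halv, fun φ hφ => ?_⟩
      refine A.inj c s T hA φ (fun g k => ?_) (fun g i hi => ?_)
      · have h3 := hφ g (Sum.inl k)
        simp only [Fintype.sum_sum_type, c', s', Int.cast_zero, zero_mul, Finset.sum_const_zero, add_zero] at h3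
        exact h3
      · have h3 := hφ g (Sum.inr i)
        simp only [Fintype.sum_sum_type, c', s', Int.cast_zero, zero_mul, Finset.sum_const_zero, zero_add,
          Finset.univ_unique, Finset.sum_singleton, map_one, mul_one] at h3
        rw [Finset.sum_eq_single i] at h3
        · simpa [hi] using h3
        · intro i' _ hne
          rw [if_neg (fun h' => hne h'.2.symm)]
          simp
        · intro h'
          exact absurd (Finset.mem_univ _) h'
  have h1 := vdim_sup_add_inf hMW.inv hMT.inv hMW.cl hMT.cl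
  rw [hzero, add_zero, vdim_off] at h1
  have h2 : vdim (W ⊔ off Γ T) ≤ Fintype.card ι := by
    rw [← vdim_top (Γ := Γ) (ι := ι)]
    exact vdim_mono le_top
  have h4 : (T.card : ℝ) ≤ d := by exact_mod_cast hTd
  linarith

end main


end SQ.T4
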