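import Pool.Agent.SQ.T4.Fil
import Pool.Agent.SQ.T3.Div3
import Pool.Agent.SQ.T3.Lev
import Pool.Agent.SQ.T3.StepX
import Pool.Agent.SQ.T2.Transfer
import Pool.Agent.SQ.T4.Cmp

/-!
# SQ, fourth stage: the skew field of a residually poly-(infinite cyclic) group and the expansions
-/

set_option autoImplicit false

noncomputable section

namespace SQ.T4

open Filter SQ.Ultra SQ.Ore Singer SQ.T3

/-- an approximation of `K` by groups with Foelner sets and Ore fields of fractions -/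
structure Apx (K : Type) [Group K] where
  G : ℕ → Type
  [grp : ∀ c, Group (G c)]
  ore : ∀ c, OreG (G c)
  halv : ∀ c, Fo.Halving (G c)
  O : ∀ c, OreDiv (G c)
  f : ∀ c, MonoidAlgebra (ZMod 2) (G c) →+* (O c).D
  frac : ∀ c, IsFrac (f c)
  f_of : ∀ c g, f c (MonoidAlgebra.of (ZMod 2) (G c) g) = (((O c).u g : (O c).Dˣ) : (O c).D)
  p : ∀ c, K →* G c

attribute [instance] Apx.grp

namespace Apx

variable {K : Type} [Group K] (A : Apx K)

/-- the sequence of division rings of an approximation -/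
def seq : DivSeq K where
  D c := (A.O c).D
  u c := (A.O c).u.comp (A.p c)
  star_u c g := by
    rw [MonoidHom.comp_apply, MonoidHom.comp_apply, map_inv (A.p c)]
    exact (A.O c).star_u _

/-- the homomorphism to the ultraproduct -/
def ρ : K →* (T2.UDS A.seq)ˣ := hom A.seq.u

theorem star_ρ (g : K) : star ((A.ρ g : (T2.UDS A.seq)ˣ) : T2.UDS A.seq) = ((A.ρ g⁻¹ : (T2.UDS A.seq)ˣ) : T2.UDS A.seq) :=
  T2.star_hom A.seq g

/-- the representatives of the elements of the division closure of a subgroup -/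
theorem cl_seq (H : Subgroup K) {x : T2.UDS A.seq} (hx : x ∈ cl A.ρ H) : ∃ y : ∀ c, A.seq.D c,
    Ultra.mk T2.U0 A.seq.D y = x ∧ ∀ c, y c ∈ Subfield.closure
      ((fun g : A.G c => A.f c (MonoidAlgebra.of (ZMod 2) (A.G c) g)) '' (H.map (A.p c) : Set (A.G c))) := by
  let F : ∀ c, Subfield (A.seq.D c) := fun c => Subfield.closure
    ((fun g : A.G c => A.f c (MonoidAlgebra.of (ZMod 2) (A.G c) g)) '' (H.map (A.p c) : Set (A.G c)))
  have hle : cl A.ρ H ≤ (sub F : Subfield (T2.UDS A.seq)) := by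
    rw [cl, Subfield.closure_le]
    rintro _ ⟨g, hg, rfl⟩
    refine ⟨_, rfl, fun c => Subfield.subset_closure ⟨A.p c g, Subgroup.mem_map_of_mem _ hg, ?_⟩⟩
    exact A.f_of c _
  obtain ⟨y, h1, h2⟩ := hle hx
  exact ⟨y, h1, h2⟩

/-- independence of cosets in the ultraproduct -/
theorem ind (H : Subgroup K) {ι : Type} (T : Finset ι) (g : ι → K)
    (hg : ∀ i ∈ T, ∀ j ∈ T, i ≠ j → ∀ᶠ c in atTop, A.p c (g i * (g j)⁻¹) ∉ H.map (A.p c)) (x : ι → T2.UDS A.seq)
    (hx : ∀ i ∈ T, x i ∈ cl A.ρ H) (h0 : ∑ i ∈ T, x i * ((A.ρ (g i) : (T2.UDS A.seq)ˣ) : T2.UDS A.seq) = 0) :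
    ∀ i ∈ T, x i = 0 := by
  classical
  have hy : ∀ i, ∃ y : ∀ c, A.seq.D c, i ∈ T → (Ultra.mk T2.U0 A.seq.D y = x i ∧ ∀ c, y c ∈ Subfield.closure
      ((fun g : A.G c => A.f c (MonoidAlgebra.of (ZMod 2) (A.G c) g)) '' (H.map (A.p c) : Set (A.G c)))) := by
    intro i
    by_cases hi : i ∈ T
    · obtain ⟨y, h⟩ := A.cl_seq H (hx i hi)
      exact ⟨y, fun _ => h⟩
    · exact ⟨0, fun h => absurd h hi⟩
  choose y hy using hy
  have h1 : Ultra.mk T2.U0 A.seq.D (∑ i ∈ T, y i * fun c => ((A.seq.u c (g i) : (A.seq.D c)ˣ) : A.seq.D c)) = 0 := by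
    rw [map_sum, ← h0]
    refine Finset.sum_congr rfl fun i hi => ?_
    rw [map_mul, (hy i hi).1]
    rfl
  rw [mk_eq_zero] at h1
  have h2 : ∀ᶠ c in (T2.U0 : Filter ℕ), ∀ i ∈ T, ∀ j ∈ T, i ≠ j → A.p c (g i * (g j)⁻¹) ∉ H.map (A.p c) := by
    rw [eventually_all_finset]
    intro i hi
    rw [eventually_all_finset]
    intro j hj
    by_cases hij : i = j
    · exact Eventually.of_forall fun _ h => absurd hij h
    · have h3 := hg i hi j hj hij
      rw [← Nat.cofinite_eq_atTop] at h3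
      filter_upwards [Filter.hyperfilter_le_cofinite h3] with c hc _
      exact hc
  have h3 : ∀ᶠ c in (T2.U0 : Filter ℕ), ∀ i ∈ T, y i c = 0 := by
    filter_upwards [h1, h2] with c h1 h2
    refine coset_ind (A.frac c) (A.ore c) (H.map (A.p c)) T (fun i => A.p c (g i)) ?_ (fun i => y i c) ?_ ?_
    · intro i hi j hj hij
      show A.p c (g i) * (A.p c (g j))⁻¹ ∉ H.map (A.p c)
      rw [← map_inv, ← map_mul]
      exact h2 i hi j hj hij
    · intro i hi
      exact (hy i hi).2 c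
    · refine Eq.trans ?_ h1
      rw [Finset.sum_apply]
      refine Finset.sum_congr rfl fun i _ => ?_
      exact congrArg (fun z : A.seq.D c => y i c * z) (A.f_of c _)
  intro i hi
  rw [← (hy i hi).1, mk_eq_zero]
  filter_upwards [h3] with c hc
  exact hc i hi

end Apx

/-- Foelner sets -/
theorem Foe.halving {Q : Type} [Group Q] (h : Foe Q) : Fo.Halving Q := by
  intro S
  obtain ⟨Φ, I, h1, h2, h3, h4⟩ := h S 0
  exact ⟨Φ, I, h1, h2, h3, by omega⟩

theorem PolyZ.halving {Q : Type} [Group Q] (h : PolyZ Q) : Fo.Halving Q := Foe.halving h.foe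

/-- an approximation adapted to the sequence -/
theorem exists_apx {K : Type} [Group K] [Countable K] (hK : ResPolyZ K) :
    ∃ (A : Apx K) (F : Fil K), (∀ c, (A.p c).ker = F.M c) ∧
      ∀ c, ∃ (Q : Type) (_ : Group Q) (π : K →* Q), PolyZ Q ∧ π.ker = F.M c := by
  obtain ⟨F, hF⟩ := stmtFil K hK
  choose Q iQ π hQ hker using hF
  choose O f hf1 hf2 using fun c => s_div3 (Q c) (hQ c).noZeroDivisors (hQ c).oreG
  exact ⟨{ G := Q, grp := iQ, ore := fun c => (hQ c).oreG, halv := fun c => PolyZ.halving (hQ c), O := O, f := f, frac := hf1,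
           f_of := hf2, p := π }, F, hker, fun c => ⟨Q c, iQ c, π c, hQ c, hker c⟩⟩

section
variable {K : Type} [Group K] (A : Apx K) (F : Fil K) (hF : ∀ c, (A.p c).ker = F.M c)

theorem Fil.antitone : Antitone F.M := antitone_nat_of_succ_le F.anti

include hF

/-- the elements of `K` are independent -/
theorem ind_ρ : LinearIndependent (ZMod 2) fun g : K => ((A.ρ g : (T2.UDS A.seq)ˣ) : T2.UDS A.seq) := by
  classical
  rw [linearIndependent_iff']
  intro S c h0
  have h1 := A.ind ⊥ S (fun g => g) (by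
      intro g _ k _ hgk
      obtain ⟨m, hm⟩ : ∃ m, g * k⁻¹ ∉ F.M m := by
        by_contra hcon
        push Not at hcon
        exact hgk (mul_inv_eq_one.1 (F.inf _ hcon))
      filter_upwards [eventually_ge_atTop m] with c hc h2
      rw [Subgroup.map_bot, Subgroup.mem_bot, ← MonoidHom.mem_ker, hF] at h2
      exact hm (F.antitone hc h2)) (fun g => algebraMap (ZMod 2) (T2.UDS A.seq) (c g)) (fun g _ => by
      obtain h | h : c g = 0 ∨ c g = 1 := by
        generalize c g = a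
        revert a
        decide
      · show algebraMap (ZMod 2) (T2.UDS A.seq) (c g) ∈ cl A.ρ ⊥
        rw [h, map_zero]
        exact zero_mem _
      · show algebraMap (ZMod 2) (T2.UDS A.seq) (c g) ∈ cl A.ρ ⊥
        rw [h, map_one]
        exact one_mem _)
    (by
      rw [← h0]
      refine Finset.sum_congr rfl fun g _ => ?_
      rw [Algebra.smul_def])
  intro g hg
  exact (map_eq_zero_iff _ (algebraMap (ZMod 2) (T2.UDS A.seq)).injective).1 (h1 g hg)

/-- the powers of `t` are independent over the division closure of `H'` -/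
theorem ind_adm {H H' : Subgroup K} {t : K} (h : Adm F H H' t) (c : ℤ →₀ T2.UDS A.seq) (hc : ∀ u, c u ∈ cl A.ρ H')
    (h0 : (c.sum fun u x => x * ((A.ρ t ^ u : (T2.UDS A.seq)ˣ) : T2.UDS A.seq)) = 0) : c = 0 := by
  classical
  obtain ⟨m, hm1, hm2⟩ := h.lev
  have h1 := A.ind H' c.support (fun u : ℤ => t ^ u) (by
      intro i _ j _ hij
      filter_upwards [eventually_ge_atTop (m + 1)] with k hk hmem
      obtain ⟨y, hy, hyt⟩ := hmem
      have h2 : y⁻¹ * (t ^ i * (t ^ j)⁻¹) ∈ F.M (m + 1) := by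
        apply F.antitone hk
        rw [← hF, MonoidHom.mem_ker, map_mul, map_inv, hyt, inv_mul_cancel]
      have h3 : y⁻¹ * (t ^ i * (t ^ j)⁻¹) ∈ H' := hm2 ⟨H.mul_mem (H.inv_mem (h.le hy))
        (H.mul_mem (H.zpow_mem h.mem _) (H.inv_mem (H.zpow_mem h.mem _))), h2⟩
      have h4 : t ^ (i - j) ∈ H' := by
        rw [zpow_sub]
        have h5 := H'.mul_mem hy h3
        rwa [mul_inv_cancel_left] at h5
      have := h.free _ h4
      omega) (fun u => c u) (fun u _ => hc u) (by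
      rw [← h0, Finsupp.sum]
      refine Finset.sum_congr rfl fun u _ => ?_
      rw [map_zpow])
  ext u
  by_cases hu : u ∈ c.support
  · exact h1 u hu
  · rw [Finsupp.coe_zero, Pi.zero_apply]
    exact Finsupp.notMem_support_iff.1 hu

/-- **the expansions** -/
theorem exists_sys : Nonempty (Sys F (sρ A.ρ)) := by
  classical
  refine ⟨⟨fun H H' t h => Classical.choice ?_⟩⟩
  have hinv : ∀ g : K, ((sρ A.ρ g)⁻¹ : (SF A.ρ)ˣ) = sρ A.ρ g⁻¹ := fun g => (map_inv (sρ A.ρ) _).symm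
  have hconj : ∀ g ∈ H, ∀ f ∈ cl (sρ A.ρ) H', ((sρ A.ρ g : (SF A.ρ)ˣ) : SF A.ρ) * f * ((sρ A.ρ g⁻¹ : (SF A.ρ)ˣ) : SF A.ρ) ∈
      cl (sρ A.ρ) H' := by
    intro g hg f hf
    induction hf using Subfield.closure_induction with
    | mem x hx =>
      obtain ⟨k, hk, rfl⟩ := hx
      refine Subfield.subset_closure ⟨g * k * g⁻¹, h.conj g hg k hk, ?_⟩
      show ((sρ A.ρ (g * k * g⁻¹) : (SF A.ρ)ˣ) : SF A.ρ) = _
      rw [map_mul, map_mul, Units.val_mul, Units.val_mul]
    | one =>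
      rw [mul_one, ← Units.val_mul, ← map_mul, mul_inv_cancel, map_one, Units.val_one]
      exact one_mem _
    | add x y _ _ h1 h2 =>
      rw [mul_add, add_mul]
      exact add_mem h1 h2
    | neg x _ h1 =>
      rw [mul_neg, neg_mul]
      exact neg_mem h1
    | inv x _ h1 =>
      have h2 : ((sρ A.ρ g : (SF A.ρ)ˣ) : SF A.ρ) * x⁻¹ * ((sρ A.ρ g⁻¹ : (SF A.ρ)ˣ) : SF A.ρ) =
          (((sρ A.ρ g : (SF A.ρ)ˣ) : SF A.ρ) * x * ((sρ A.ρ g⁻¹ : (SF A.ρ)ˣ) : SF A.ρ))⁻¹ := by
        rw [mul_inv_rev, mul_inv_rev, ← hinv, ← Units.val_inv_eq_inv_val, ← Units.val_inv_eq_inv_val, inv_inv, mul_assoc]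
      rw [h2]
      exact inv_mem h1
    | mul x y _ _ h1 h2 =>
      have h3 : ((sρ A.ρ g : (SF A.ρ)ˣ) : SF A.ρ) * (x * y) * ((sρ A.ρ g⁻¹ : (SF A.ρ)ˣ) : SF A.ρ) =
          (((sρ A.ρ g : (SF A.ρ)ˣ) : SF A.ρ) * x * ((sρ A.ρ g⁻¹ : (SF A.ρ)ˣ) : SF A.ρ)) *
            (((sρ A.ρ g : (SF A.ρ)ˣ) : SF A.ρ) * y * ((sρ A.ρ g⁻¹ : (SF A.ρ)ˣ) : SF A.ρ)) := by
        rw [← hinv]
        simp only [mul_assoc, Units.inv_mul_cancel_left]
      rw [h3]
      exact mul_mem h1 h2
  obtain ⟨st⟩ := stmtStep (SF A.ρ) (cl (sρ A.ρ) H') (sρ A.ρ t)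
    (fun f hf => by
      rw [hinv]
      exact hconj t h.mem f hf)
    (fun f hf => by
      rw [hinv]
      have := hconj t⁻¹ (H.inv_mem h.mem) f hf
      rwa [inv_inv] at this)
    (fun c hc h0 => by
      have h1 : c.mapRange (val A.ρ) (map_zero _) = 0 := by
        apply ind_adm A F hF h
        · intro u
          rw [Finsupp.mapRange_apply, ← map_cl]
          exact ⟨c u, hc u, rfl⟩
        · rw [Finsupp.sum_mapRange_index (fun _ => zero_mul _)]
          have h2 := congrArg (val A.ρ) h0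
          rw [map_zero, Finsupp.sum, map_sum] at h2
          rw [← h2, Finsupp.sum]
          refine Finset.sum_congr rfl fun u _ => ?_
          rw [map_mul, ← map_zpow, ← map_zpow, val_sρ]
      ext u
      have h2 := DFunLike.congr_fun h1 u
      rw [Finsupp.mapRange_apply, Finsupp.coe_zero, Pi.zero_apply] at h2
      rw [Finsupp.coe_zero, Pi.zero_apply]
      exact val_inj A.ρ (h2.trans (map_zero _).symm))
  have hcl : Subfield.closure (((cl (sρ A.ρ) H' : Subfield (SF A.ρ)) : Set (SF A.ρ)) ∪ {((sρ A.ρ t : (SF A.ρ)ˣ) : SF A.ρ)}) =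
      cl (sρ A.ρ) H := by
    refine le_antisymm ?_ ?_
    · rw [Subfield.closure_le]
      rintro x (hx | hx)
      · have : cl (sρ A.ρ) H' ≤ cl (sρ A.ρ) H := Subfield.closure_mono (Set.image_mono h.le)
        exact this hx
      · rw [Set.mem_singleton_iff.1 hx]
        exact Subfield.subset_closure ⟨t, h.mem, rfl⟩
    · refine (Subfield.closure_le).2 ?_
      rintro _ ⟨g, hg, rfl⟩
      obtain ⟨n, hn⟩ := h.gen g hg
      have h1 : ((sρ A.ρ g : (SF A.ρ)ˣ) : SF A.ρ) =
          ((sρ A.ρ (g * t ^ (-n)) : (SF A.ρ)ˣ) : SF A.ρ) * ((sρ A.ρ t : (SF A.ρ)ˣ) : SF A.ρ) ^ n := by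
        rw [← Units.val_zpow_eq_zpow_val, ← Units.val_mul, ← map_zpow, ← map_mul, mul_assoc, ← zpow_add, neg_add_cancel,
          zpow_zero, mul_one]
      show ((sρ A.ρ g : (SF A.ρ)ˣ) : SF A.ρ) ∈ _
      rw [h1]
      refine mul_mem (Subfield.subset_closure (Or.inl (Subfield.subset_closure ⟨_, hn, rfl⟩))) (zpow_mem ?_ n)
      exact Subfield.subset_closure (Or.inr rfl)
  rw [← hcl]
  exact ⟨st⟩

end

/-- the independence in the skew field generated by the group -/
theorem li_sρ {K : Type} [Group K] {E : Type} [DivisionRing E] [Algebra (ZMod 2) E] (ρ : K →* Eˣ)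
    (h : LinearIndependent (ZMod 2) fun g : K => ((ρ g : Eˣ) : E)) :
    LinearIndependent (ZMod 2) fun g : K => ((sρ ρ g : (SF ρ)ˣ) : SF ρ) := by
  rw [linearIndependent_iff'] at h ⊢
  intro S c h0 g hg
  refine h S c ?_ g hg
  have h1 := congrArg (val ρ) h0
  rw [map_zero, map_sum] at h1
  rw [← h1]
  refine Finset.sum_congr rfl fun k _ => ?_
  rw [ZMod.map_smul (val ρ), val_sρ]

end SQ.T4
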