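import Pool.Agent.SQ.T3.Defs
import Pool.Agent.SQ.T3.PolyZ

/-!
# SQ, fourth stage: residually poly-(infinite cyclic) groups

`Fil K`: a descending sequence of normal subgroups `M c` with trivial intersection.  `Adm F H H' t`: an admissible pair
`H' ≤ H` with `H / H'` infinite cyclic, generated by `t`.  `Sys F ρ`: the expansions of the elements of `cl ρ H` for all
admissible pairs.  `Good S H x`: the iterated expansions of `x` end in the span of a subgroup.
Paper: team-store MP_984acc_POLYZ_h76.md.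
-/

set_option autoImplicit false

open scoped TensorProduct

namespace SQ.T4

open Singer SQ.T3

/-- a descending sequence of normal subgroups with trivial intersection -/
structure Fil (K : Type) [Group K] where
  M : ℕ → Subgroup K
  normal : ∀ c, (M c).Normal
  zero : M 0 = ⊤
  anti : ∀ c, M (c + 1) ≤ M c
  inf : ∀ g, (∀ c, g ∈ M c) → g = 1

/-- the admissible pairs: `H' ≤ H` is normal, `H / H'` is infinite cyclic with the generator `t`, and `H' ≤ H` contains
`H ⊓ M (c + 1)` for some `c` with `H ≤ M c` -/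
structure Adm {K : Type} [Group K] (F : Fil K) (H H' : Subgroup K) (t : K) : Prop where
  le : H' ≤ H
  mem : t ∈ H
  conj : ∀ g ∈ H, ∀ h ∈ H', g * h * g⁻¹ ∈ H'
  gen : ∀ g ∈ H, ∃ n : ℤ, g * t ^ (-n) ∈ H'
  free : ∀ n : ℤ, t ^ n ∈ H' → n = 0
  lev : ∃ c, H ≤ F.M c ∧ H ⊓ F.M (c + 1) ≤ H'

/-- **Y3a**: the sequence, with poly-(infinite cyclic) quotients -/
def StmtFil : Prop :=
  ∀ (K : Type) [Group K] [Countable K], ResPolyZ K → ∃ F : Fil K, ∀ c, ∃ (Q : Type) (_ : Group Q) (π : K →* Q),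
    PolyZ Q ∧ π.ker = F.M c

/-- **Y3b**: existence of admissible pairs -/
def StmtEx : Prop :=
  ∀ (K : Type) [Group K] (F : Fil K), (∀ c, ∃ (Q : Type) (_ : Group Q) (π : K →* Q), PolyZ Q ∧ π.ker = F.M c) →
    ∀ H : Subgroup K, H ≠ ⊥ → ∃ (H' : Subgroup K) (t : K), Adm F H H' t

/-- **Y3c**: the measure -/
def StmtMeas : Prop :=
  ∀ (K : Type) [Group K] (F : Fil K), (∀ c, ∃ (Q : Type) (_ : Group Q) (π : K →* Q), PolyZ Q ∧ π.ker = F.M c) →
    ∃ μ : ℕ → Subgroup K → ℕ, ∀ (m : ℕ) (H H' : Subgroup K) (t : K), Adm F H H' t → H ⊓ F.M m ≤ H' → μ m H' < μ m H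

section fld
variable {K : Type} [Group K]

/-- the expansions for all admissible pairs -/
structure Sys (F : Fil K) {E : Type} [DivisionRing E] (ρ : K →* Eˣ) where
  st : ∀ (H H' : Subgroup K) (t : K), Adm F H H' t → Step (cl ρ H') (cl ρ H) (ρ t)

/-- the good elements -/
inductive Good {F : Fil K} {E : Type} [DivisionRing E] {ρ : K →* Eˣ} (S : Sys F ρ) : Subgroup K → E → Prop
  | base {H : Subgroup K} {x : E} : x ∈ AddSubgroup.closure ((fun g : K => ((ρ g : Eˣ) : E)) '' (H : Set K)) → Good S H x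
  | step {H : Subgroup K} {x : E} : x ∈ cl ρ H →
      (∀ (H' : Subgroup K) (t : K) (h : Adm F H H' t) (u : ℤ), Good S H' ((S.st H H' t h).κ x u)) → Good S H x

/-- **Y4**: every element is good -/
def StmtGood : Prop :=
  ∀ (K : Type) [Group K] (F : Fil K) (μ : ℕ → Subgroup K → ℕ),
    (∀ (m : ℕ) (H H' : Subgroup K) (t : K), Adm F H H' t → H ⊓ F.M m ≤ H' → μ m H' < μ m H) →
    ∀ (E : Type) [DivisionRing E] [Algebra (ZMod 2) E] (ρ : K →* Eˣ) (S : Sys F ρ) (H : Subgroup K),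
      ∀ x ∈ cl ρ H, Good S H x

/-- **Y5**: the homology -/
def StmtTor : Prop :=
  ∀ (K : Type) [Group K] (F : Fil K), (∀ H : Subgroup K, H ≠ ⊥ → ∃ (H' : Subgroup K) (t : K), Adm F H H' t) →
    ∀ (E : Type) [DivisionRing E] [Algebra (ZMod 2) E] [StarRing E] (ρ : K →* Eˣ),
    (∀ g, star ((ρ g : Eˣ) : E) = ((ρ g⁻¹ : Eˣ) : E)) → cl ρ (⊤ : Subgroup K) = ⊤ →
    (LinearIndependent (ZMod 2) fun g : K => ((ρ g : Eˣ) : E)) →
    ∀ S : Sys F ρ, (∀ (H : Subgroup K), ∀ x ∈ cl ρ H, Good S H x) →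
    ∀ (R : FinRes K) (j : ℕ), ExH (diag ρ) R (j + 1)

end fld

end SQ.T4
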