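import Pool.Agent.SQ.T4.Defs
import Pool.Agent.SQ.T3.Foe

/-!
# SQ, fourth stage: the sequence `M c`, admissible pairs and the measure (rows Y3a, Y3b, Y3c)
-/

set_option autoImplicit false

namespace SQ.T4

open Singer SQ.T3

theorem stmtFil : StmtFil := by
  intro K _ _ hK
  classical
  obtain ⟨f, hf⟩ := exists_surjective_nat K
  have hex : ∀ n, ∃ (Q : Type) (_ : Group Q) (π : K →* Q), PolyZ Q ∧ (f n ≠ 1 → π (f n) ≠ 1) := by
    intro n
    by_cases h : f n = 1
    · exact ⟨Unit, inferInstance, 1, PolyZ.triv fun q => rfl, fun h' => absurd h h'⟩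
    · obtain ⟨Q, i, π, h1, h2⟩ := hK (f n) h
      exact ⟨Q, i, π, h1, fun _ => h2⟩
  choose Q iQ π hP hπ using hex
  let Pj : ∀ c : ℕ, K →* ∀ i : Fin c, Q i := fun c => MonoidHom.pi fun i : Fin c => π i
  have hPj : ∀ c g, g ∈ (Pj c).ker ↔ ∀ i < c, π i g = 1 := by
    intro c g
    rw [MonoidHom.mem_ker]
    constructor
    · intro h i hi
      exact congrFun h ⟨i, hi⟩
    · intro h
      funext i
      exact h i i.2
  refine ⟨{ M := fun c => (Pj c).ker
            normal := fun c => inferInstance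
            zero := ?_
            anti := ?_
            inf := ?_ }, fun c => ⟨_, inferInstance, Pj c, PolyZ.pi fun i => hP i, rfl⟩⟩
  · rw [eq_top_iff]
    intro g _
    rw [hPj]
    intro i hi
    exact absurd hi (Nat.not_lt_zero i)
  · intro c g hg
    rw [hPj] at hg ⊢
    exact fun i hi => hg i (Nat.lt_succ_of_lt hi)
  · intro g hg
    obtain ⟨n, rfl⟩ := hf g
    by_contra h
    exact hπ n h ((hPj (n + 1) _).1 (hg (n + 1)) n (Nat.lt_succ_self n))

/-- a nontrivial poly-(infinite cyclic) group has a nontrivial homomorphism to `ℤ` -/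
theorem exists_chi {Q : Type} [Group Q] (h : PolyZ Q) (hne : ∃ q : Q, q ≠ 1) :
    ∃ χ : Q →* Multiplicative ℤ, ∃ q, χ q ≠ 1 := by
  induction h with
  | triv h => exact absurd (h _) hne.choose_spec
  | @ext Q _ χ _ ih =>
    by_cases h : ∃ q, χ q ≠ 1
    · exact ⟨χ, h⟩
    · push Not at h
      obtain ⟨q, hq⟩ := hne
      obtain ⟨ψ, x, hx⟩ := ih ⟨⟨q, h q⟩, fun h0 => hq (congrArg Subtype.val h0)⟩
      refine ⟨ψ.comp ((MonoidHom.id Q).codRestrict χ.ker h), (x : Q), ?_⟩
      exact hx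

/-- the admissible pair of a homomorphism -/
theorem adm_of_chi {K : Type} [Group K] (F : Fil K) (H : Subgroup K) (ψ : H →* Multiplicative ℤ) (hψ : ∃ h, ψ h ≠ 1)
    (c : ℕ) (hc : H ≤ F.M c) (h0 : ∀ h : H, (h : K) ∈ F.M (c + 1) → ψ h = 1) :
    ∃ t : K, Adm F H (ψ.ker.map H.subtype) t := by
  obtain ⟨t, ht⟩ := Foe.exists_gen ψ
  have ht1 : ψ t ≠ 1 := by
    intro h1
    obtain ⟨h, hh⟩ := hψ
    obtain ⟨n, hn⟩ := ht h
    exact hh (by rw [hn, h1, one_zpow])
  have hm : ∀ h : H, (h : K) ∈ ψ.ker.map H.subtype ↔ ψ h = 1 := by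
    intro h
    rw [Subgroup.mem_map]
    constructor
    · rintro ⟨x, hx, hxh⟩
      have : x = h := Subtype.ext hxh
      rw [← this]
      exact hx
    · intro hh
      exact ⟨h, hh, rfl⟩
  have hle : ψ.ker.map H.subtype ≤ H := by
    rintro _ ⟨x, _, rfl⟩
    exact x.2
  refine ⟨t, ⟨hle, t.2, ?_, ?_, ?_, c, hc, ?_⟩⟩
  · intro g hg h hh
    have hhH : h ∈ H := hle hh
    have h1 : ψ ⟨h, hhH⟩ = 1 := (hm ⟨h, hhH⟩).1 hh
    have h2 : ψ (⟨g, hg⟩ * ⟨h, hhH⟩ * ⟨g, hg⟩⁻¹) = 1 := by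
      rw [map_mul, map_mul, map_inv, h1, mul_one, mul_inv_cancel]
    exact (hm _).2 h2
  · intro g hg
    obtain ⟨n, hn⟩ := ht ⟨g, hg⟩
    refine ⟨n, ?_⟩
    have h2 : ψ (⟨g, hg⟩ * t ^ (-n)) = 1 := by
      rw [map_mul, hn, map_zpow, ← zpow_add, add_neg_cancel, zpow_zero]
    have h3 := (hm _).2 h2
    simpa using h3
  · intro n hn
    have h3 : ψ (t ^ n) = 1 := by
      apply (hm (t ^ n)).1
      simpa using hn
    rw [map_zpow] at h3
    have h4 := congrArg Multiplicative.toAdd h3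
    rw [toAdd_zpow, toAdd_one, smul_eq_mul] at h4
    rcases mul_eq_zero.1 h4 with h | h
    · exact h
    · exact absurd (by rw [← ofAdd_toAdd (ψ t), h, ofAdd_zero]) ht1
  · rintro g ⟨hg, hgM⟩
    exact (hm ⟨g, hg⟩).2 (h0 ⟨g, hg⟩ hgM)

theorem stmtEx : StmtEx := by
  intro K _ F hF H hH
  classical
  obtain ⟨g, hg, hg1⟩ : ∃ g ∈ H, g ≠ 1 := by
    by_contra hcon
    push Not at hcon
    exact hH ((Subgroup.eq_bot_iff_forall H).2 hcon)
  have hex : ∃ c, ¬ H ≤ F.M c := by
    by_contra hcon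
    push Not at hcon
    exact hg1 (F.inf g fun c => hcon c hg)
  obtain ⟨c, hc1, hc2⟩ : ∃ c, H ≤ F.M c ∧ ¬ H ≤ F.M (c + 1) := by
    have h1 := Nat.find_spec hex
    rcases h2 : Nat.find hex with _ | c
    · rw [h2] at h1
      exact absurd (by rw [F.zero]; exact le_top) h1
    · refine ⟨c, ?_, by rwa [h2] at h1⟩
      by_contra hcon
      have := Nat.find_min' hex hcon
      omega
  obtain ⟨Q, _, π, hQ, hker⟩ := hF (c + 1)
  have hQ' : PolyZ (H.map π) := hQ.subgroup _
  obtain ⟨x, hx, hxM⟩ := SetLike.not_le_iff_exists.1 hc2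
  have hx1 : π x ≠ 1 := by
    intro h
    apply hxM
    rw [← hker]
    exact h
  obtain ⟨χ, q, hq⟩ := exists_chi hQ' ⟨⟨π x, Subgroup.mem_map_of_mem π hx⟩, fun h => hx1 (congrArg Subtype.val h)⟩
  let r : H →* H.map π := (π.comp H.subtype).codRestrict (H.map π) fun h => Subgroup.mem_map_of_mem π h.2
  obtain ⟨t, ht⟩ := adm_of_chi F H (χ.comp r) (by
    obtain ⟨y, hy, hyq⟩ := q.2
    refine ⟨⟨y, hy⟩, ?_⟩
    have : r ⟨y, hy⟩ = q := Subtype.ext hyq
    show χ (r ⟨y, hy⟩) ≠ 1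
    rw [this]
    exact hq) c hc1 (by
    intro h hh
    rw [← hker] at hh
    have : r h = 1 := Subtype.ext hh
    show χ (r h) = 1
    rw [this, map_one])
  exact ⟨_, t, ht⟩

/-- the pairs with infinite cyclic quotient -/
def ZPair {K : Type} [Group K] (H H' : Subgroup K) : Prop :=
  H' ≤ H ∧ ∃ ψ : H →* Multiplicative ℤ, (∀ g : H, ψ g = 1 ↔ (g : K) ∈ H') ∧ ∃ g, ψ g ≠ 1

theorem Adm.zpair {K : Type} [Group K] {F : Fil K} {H H' : Subgroup K} {t : K} (h : Adm F H H' t) : ZPair H H' := by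
  classical
  have hun : ∀ g : K, ∀ m n : ℤ, g * t ^ (-m) ∈ H' → g * t ^ (-n) ∈ H' → m = n := by
    intro g m n hm hn
    have h1 := H'.mul_mem (H'.inv_mem hm) hn
    have h2 : t ^ (m - n) ∈ H' := by
      have h3 : (g * t ^ (-m))⁻¹ * (g * t ^ (-n)) = t ^ (m - n) := by
        rw [mul_inv_rev, mul_assoc, inv_mul_cancel_left, ← zpow_neg, neg_neg, ← zpow_add]
        congr 1
      rwa [h3] at h1
    have := h.free _ h2
    omega
  choose n hn using h.gen
  refine ⟨h.le, MonoidHom.mk' (fun g : H => Multiplicative.ofAdd (n g g.2)) ?_, ?_, ⟨t, h.mem⟩, ?_⟩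
  · intro a b
    rw [← ofAdd_add]
    congr 1
    apply hun _ _ _ (hn _ (a * b).2)
    have h1 := h.conj (t ^ n a a.2) (H.zpow_mem h.mem _) _ (hn b b.2)
    have h2 := H'.mul_mem (hn a a.2) h1
    have h3 : (a : K) * t ^ (-n a a.2) * (t ^ n a a.2 * ((b : K) * t ^ (-n b b.2)) * (t ^ n a a.2)⁻¹)
        = ((a * b : H) : K) * t ^ (-(n a a.2 + n b b.2)) := by
      rw [Subgroup.coe_mul, neg_add_rev, zpow_add, ← zpow_neg]
      group
    rwa [h3] at h2
  · intro g
    constructor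
    · intro hg
      have h1 : n g g.2 = 0 := by simpa using congrArg Multiplicative.toAdd hg
      have h2 := hn g g.2
      rw [h1] at h2
      simpa using h2
    · intro hg
      have h1 : n g g.2 = 0 := hun g _ _ (hn g g.2) (by simpa using hg)
      show Multiplicative.ofAdd (n g g.2) = 1
      rw [h1, ofAdd_zero]
  · intro h1
    have h2 : n t h.mem = 0 := by simpa using congrArg Multiplicative.toAdd h1
    have h3 : n t h.mem = 1 := hun t _ _ (hn t h.mem) (by simp)
    omega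

theorem exists_meas {Q : Type} [Group Q] (hQ : PolyZ Q) : ∀ {K : Type} [Group K] (π : K →* Q),
    ∃ μ : Subgroup K → ℕ, ∀ H H' : Subgroup K, ZPair H H' → H ⊓ π.ker ≤ H' → μ H' < μ H := by
  classical
  induction hQ with
  | triv hq =>
    intro K _ π
    refine ⟨fun _ => 0, fun H H' hH hle => ?_⟩
    obtain ⟨_, ψ, hψ, g, hg⟩ := hH
    exact absurd ((hψ g).2 (hle ⟨g.2, hq _⟩)) hg
  | @ext Q _ χ _ ih =>
    intro K _ π
    let N : Subgroup K := (χ.comp π).ker
    let π' : N →* χ.ker := (π.comp N.subtype).codRestrict χ.ker fun x => x.2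
    obtain ⟨ν, hν⟩ := ih π'
    refine ⟨fun H => ν (H.comap N.subtype) + if ∀ g ∈ H, χ (π g) = 1 then 0 else 1, fun H H' hH hle => ?_⟩
    obtain ⟨hHH, ψ, hψ, g, hg⟩ := hH
    by_cases hA : ∃ x : H, (x : K) ∈ N ∧ ψ x ≠ 1
    · obtain ⟨x, hxN, hx⟩ := hA
      have h1 : ν (H'.comap N.subtype) < ν (H.comap N.subtype) := by
        apply hν
        · refine ⟨Subgroup.comap_mono hHH, ?_⟩
          let i : H.comap N.subtype →* H := (N.subtype.comp (H.comap N.subtype).subtype).codRestrict H fun y => y.2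
          refine ⟨ψ.comp i, fun y => hψ (i y), ⟨⟨x, hxN⟩, x.2⟩, ?_⟩
          exact hx
        · rintro y ⟨hy1, hy2⟩
          exact hle ⟨hy1, congrArg Subtype.val (hy2 : π' y = 1)⟩
      have h2 : (if ∀ g ∈ H', χ (π g) = 1 then 0 else 1) ≤ (if ∀ g ∈ H, χ (π g) = 1 then 0 else 1) := by
        by_cases h3 : ∀ g ∈ H, χ (π g) = 1
        · rw [if_pos h3, if_pos fun g hg => h3 g (hHH hg)]
        · rw [if_neg h3]
          split_ifs <;> omega
      exact add_lt_add_of_lt_of_le h1 h2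
    · push Not at hA
      -- `ψ` kills the intersection with `N`
      have h1 : H'.comap N.subtype = H.comap N.subtype := by
        refine le_antisymm (Subgroup.comap_mono hHH) ?_
        intro y hy
        exact (hψ ⟨y, hy⟩).1 (hA ⟨y, hy⟩ y.2)
      have h2 : ¬ ∀ g ∈ H, χ (π g) = 1 := fun h => hg (hA g (h g g.2))
      -- the elements of the kernel of `ψ` are in `N`
      have h3 : ∀ x ∈ H', χ (π x) = 1 := by
        intro x hx
        let x' : H := ⟨x, hHH hx⟩
        have hx' : ψ x' = 1 := (hψ x').2 hx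
        -- with `χ g = a`, `χ x = b`, `x ^ a * g ^ (-b)` is in `N`
        let a : ℤ := Multiplicative.toAdd (χ (π g))
        let b : ℤ := Multiplicative.toAdd (χ (π x))
        have h4 : ((x' ^ a * g ^ (-b) : H) : K) ∈ N := by
          show χ (π ((x' ^ a * g ^ (-b) : H) : K)) = 1
          rw [Subgroup.coe_mul, Subgroup.coe_zpow, Subgroup.coe_zpow, map_mul, map_mul, map_zpow, map_zpow, map_zpow, map_zpow]
          apply Multiplicative.toAdd.injective
          rw [toAdd_mul, toAdd_zpow, toAdd_zpow, toAdd_one, smul_eq_mul, smul_eq_mul]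
          show a * b + -b * a = 0
          ring
        have h5 := hA _ h4
        rw [map_mul, map_zpow, map_zpow, hx', one_zpow, one_mul] at h5
        have h6 : b = 0 := by
          have h7 := congrArg Multiplicative.toAdd h5
          rw [toAdd_zpow, toAdd_one, smul_eq_mul] at h7
          rcases mul_eq_zero.1 h7 with h | h
          · omega
          · exact absurd (by rw [← ofAdd_toAdd (ψ g), h, ofAdd_zero]) hg
        rw [← ofAdd_toAdd (χ (π x)), show Multiplicative.toAdd (χ (π x)) = 0 from h6, ofAdd_zero]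
      show ν (H'.comap N.subtype) + (if ∀ g ∈ H', χ (π g) = 1 then 0 else 1)
        < ν (H.comap N.subtype) + if ∀ g ∈ H, χ (π g) = 1 then 0 else 1
      rw [h1, if_pos h3, if_neg h2]
      omega

theorem stmtMeas : StmtMeas := by
  intro K _ F hF
  choose Q iQ π hQ hker using hF
  choose μ hμ using fun m => exists_meas (hQ m) (π m)
  refine ⟨μ, fun m H H' t h hle => hμ m H H' h.zpair ?_⟩
  rw [hker]
  exact hle

end SQ.T4
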