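import Pool.Agent.SQ.T4.Apx
import Pool.Agent.SQ.T3.Final

/-!
# SQ, fourth stage: the final theorem, from the rows
-/

set_option autoImplicit false

noncomputable section

namespace SQ.T4

open Filter SQ.Ultra Singer Pool.Agent.Helper18.SQ Pool.Agent.Helper16.Cmp SQ.T3

/-- the linear independence in the fields of fractions -/
theorem Apx.li {K : Type} [Group K] (A : Apx K) (c : ℕ) :
    LinearIndependent (ZMod 2) (fun g : A.G c => (((A.O c).u g : (A.O c).Dˣ) : (A.O c).D)) := by
  let L : (A.G c →₀ ZMod 2) →+ (A.O c).D :=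
    { toFun := fun x => A.f c (MonoidAlgebra.ofCoeff x)
      map_zero' := by
        show A.f c 0 = 0
        exact map_zero _
      map_add' := fun x y => by
        show A.f c (MonoidAlgebra.ofCoeff x + MonoidAlgebra.ofCoeff y) = _
        exact map_add _ _ _ }
  have h1 : ((Finsupp.linearCombination (ZMod 2) (fun g : A.G c => (((A.O c).u g : (A.O c).Dˣ) : (A.O c).D)) :
      (A.G c →₀ ZMod 2) →ₗ[ZMod 2] (A.O c).D) : (A.G c →₀ ZMod 2) →+ (A.O c).D) = L := by
    refine Finsupp.addHom_ext fun g a => ?_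
    show Finsupp.linearCombination (ZMod 2) (fun g : A.G c => (((A.O c).u g : (A.O c).Dˣ) : (A.O c).D))
      (Finsupp.single g a) = A.f c (MonoidAlgebra.single g a)
    rw [Finsupp.linearCombination_single, ← A.f_of]
    have h2 : MonoidAlgebra.single g a = a • MonoidAlgebra.of (ZMod 2) (A.G c) g := by
      rw [MonoidAlgebra.of_apply, MonoidAlgebra.smul_single, smul_eq_mul, mul_one]
    rw [h2, ZMod.map_smul (A.f c : MonoidAlgebra (ZMod 2) (A.G c) →+* (A.O c).D)]
  intro x y hxy
  have h3 : L x = L y := by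
    rw [← h1]
    exact hxy
  exact congrArg MonoidAlgebra.coeff ((A.frac c).inj h3)

/-- from the cohomology with coefficients in the ultraproduct to the `ℓ²`-homology -/
theorem vanE_of_ex {K : Type} [Group K] (A : Apx K) (hsep : ∀ g, g ≠ 1 → ∀ᶠ c in atTop, A.p c g ≠ 1)
    (R : FinRes K) (i : ℕ) (h5 : Ex (lmul A.ρ) R i) : R.VanE i := by
  classical
  have h6 : CoV R (fun x => lm ((A.ρ x : (T2.UDS A.seq)ˣ) : T2.UDS A.seq)) i :=
    FinSt.coV_of_ex _ R i h5
  refine van_of_bound (D := (T2.UDS A.seq)ᵐᵒᵖ) (M := T2.UDS A.seq) R _ ?_ i h6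
  intro κ ι J _ _ _ _ c s W hW
  rw [finrank_op, Nat.cast_one, mul_one]
  refine vdim_le_of_datum c s W hW _ fun S => ?_
  have h7 := T2.finrank_solF_le A.seq c s
  have h8 : ∀ᶠ n in (T2.U0 : Filter ℕ), ∀ g ∈ S, g ≠ 1 → A.p n g ≠ 1 := by
    rw [Filter.eventually_all_finset]
    intro g _
    by_cases hg : g = 1
    · exact Eventually.of_forall fun _ h9 => absurd hg h9
    · have h10 := hsep g hg
      rw [← Nat.cofinite_eq_atTop] at h10
      filter_upwards [Filter.hyperfilter_le_cofinite h10] with n hn _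
      exact hn
  obtain ⟨m, hm1, hm2⟩ := (h7.and h8).exists
  exact ⟨{ Q := A.G m
           π := A.p m
           sep := hm2
           halv := A.halv m
           D := (A.O m).D
           u := (A.O m).u
           li := A.li m }, hm1⟩

/-- a residually poly-(infinite cyclic) group has no involutions -/
theorem PolyZ.noInv {Q : Type} [Group Q] (h : PolyZ Q) : ∀ g : Q, g * g = 1 → g = 1 := by
  induction h with
  | triv h => exact fun g _ => h g
  | @ext Q _ χ _ ih =>
    intro g hg
    have h1 : χ g * χ g = 1 := by rw [← map_mul, hg, map_one]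
    have h2 : χ g = 1 := by
      have h3 : Multiplicative.toAdd (χ g) + Multiplicative.toAdd (χ g) = 0 := by
        rw [← toAdd_mul, h1, toAdd_one]
      exact toAdd_eq_zero.1 (by omega)
    have h4 := ih ⟨g, h2⟩ (Subtype.ext hg)
    exact congrArg Subtype.val h4

theorem noInv_of_resPolyZ {K : Type} [Group K] (hK : ResPolyZ K) (g : K) (hg : g * g = 1) : g = 1 := by
  by_contra hne
  obtain ⟨Q, _, π, hQ, hπ⟩ := hK g hne
  exact hπ (PolyZ.noInv hQ _ (by rw [← map_mul, hg, map_one]))

/-- **the vanishing theorem for the residually poly-(infinite cyclic) groups** (from the rows) -/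
theorem vanE_resPolyZ_of (hGood : StmtGood) (hTor : StmtTor) {K : Type} [Group K] (hK : ResPolyZ K) {n : ℕ}
    (hn : IsPD n K) (R : FinRes K) (i : ℕ) (hi : 2 * i ≠ n) : R.VanE i := by
  have hc : Countable K := T2.countable_of_finRes R
  obtain ⟨A, F, hF, hP⟩ := exists_apx hK
  have hsep : ∀ g, g ≠ 1 → ∀ᶠ c in atTop, A.p c g ≠ 1 := by
    intro g hg
    obtain ⟨m, hm⟩ : ∃ m, g ∉ F.M m := by
      by_contra hcon
      push Not at hcon
      exact hg (F.inf g hcon)
    filter_upwards [eventually_ge_atTop m] with c hc h1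
    rw [← MonoidHom.mem_ker, hF] at h1
    exact hm (F.antitone hc h1)
  refine vanE_of_ex A hsep R i (ex_base _ R i ?_)
  let _ : StarRing (SF A.ρ) := starSF A.ρ A.star_ρ
  obtain ⟨S⟩ := exists_sys A F hF
  have hst : ∀ g, star ((sρ A.ρ g : (SF A.ρ)ˣ) : SF A.ρ) = ((sρ A.ρ g⁻¹ : (SF A.ρ)ˣ) : SF A.ρ) := star_sρ A.ρ A.star_ρ
  obtain ⟨μ, hμ⟩ := stmtMeas K F hP
  exact vanish_of_tor lem (noInv_of_resPolyZ hK) (sρ A.ρ) hst hn R
    (hTor K F (stmtEx K F hP) (SF A.ρ) (sρ A.ρ) hst (cl_top A.ρ) (li_sρ A.ρ (ind_ρ A F hF)) S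
      (fun H x hx => hGood K F μ hμ (SF A.ρ) (sρ A.ρ) S H x hx) R) i hi

/-- the same for the groups with a residually poly-(infinite cyclic) subgroup of finite index -/
theorem vanE_virtual_resPolyZ_of (hGood : StmtGood) (hTor : StmtTor)
    {Γ : Type} [Group Γ] (H : Subgroup Γ) [hH : H.FiniteIndex] (hT : ResPolyZ H) {n : ℕ}
    (hPD : IsPD n Γ ∨ IsPD n H) (R : FinRes Γ) (i : ℕ) (hi : 2 * i ≠ n) : R.VanE i :=
  FinRes.vanE_of_index H (fun R' => vanE_resPolyZ_of hGood hTor hT
    (hPD.elim (fun h => h.of_finiteIndex H) id) R' i hi) R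

end SQ.T4
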