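import Pool.Agent.SQ.T3.Tor
import Pool.Agent.SQ.T4.Defs

/-!
# SQ, fourth stage: `H_q(K; D ⊗ D) = 0` for `q > 0` (row Y5)
-/

set_option autoImplicit false
set_option linter.unusedSectionVars false

open scoped TensorProduct

namespace SQ.T3.Tor

open Singer SQ.Acr

section gen
variable {K : Type} [Group K] {E : Type} [DivisionRing E] [Algebra (ZMod 2) E] (ρ : K →* Eˣ)

/-- the statement is of finite character -/
lemma Va.of_fin {R : FinRes K} {N : Subgroup K} {G : Set E} (h : ∀ X : Finset E, (∀ x ∈ X, x ∈ G) → Va ρ R N (X : Set E)) :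
    Va ρ R N G := by
  intro q c hc hd
  obtain ⟨X, Y, hX, hY, hXY⟩ := Ch.fin hc
  exact h X hX q c (Ch.mono (le_refl _) (fun y hy => hY y hy) hXY) hd

lemma Va.anti {R : FinRes K} {N : Subgroup K} {G G' : Set E} (h : G ⊆ G') (hV : Va ρ R N G') : Va ρ R N G :=
  fun q c hc hd => hV q c (Ch.mono h (fun _ hy => hy) hc) hd

/-- vanishing of the homology from the statement of the induction -/
theorem exH_of_Va (R : FinRes K) (hcl : cl ρ (⊤ : Subgroup K) = ⊤) (hV : ∀ X : Finset E, Va ρ R ⊤ (X : Set E)) (j : ℕ) :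
    ExH (ten ρ) R (j + 1) := by
  classical
  intro f hf
  have hI : ∀ α : Type, Iv ρ α (⊤ : Subgroup K) = coin (sg (ten ρ) α) ⊤ := by
    intro α
    rw [Iv, coin, hcl]
    congr 1
    ext z
    constructor
    · rintro ⟨g, hg, x, _, rfl⟩
      exact ⟨g, hg, x, rfl⟩
    · rintro ⟨g, hg, x, rfl⟩
      exact ⟨g, hg, x, by simpa using Ch.univ α x, rfl⟩
  have h1 : bd R j (se (R.ι (j + 1)) f) ∈ Iv ρ (R.ι j) (⊤ : Subgroup K) := by
    rw [hI]
    have h1 := sub_se (ten ρ) ((dd (R.d j)).rTensor (E ⊗[ZMod 2] E) (se (R.ι (j + 1)) f))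
    rw [co_d, co_se, hf] at h1
    have h2 : se (R.ι j) (0 : R.ι j → E ⊗[ZMod 2] E) = (0 : Tc K E (R.ι j)) := by simp [se]
    rwa [h2, sub_zero] at h1
  obtain ⟨X, Y, -, -, hXY⟩ := Ch.fin (Ch.univ (R.ι (j + 1)) (se (R.ι (j + 1)) f : Tc K E (R.ι (j + 1))))
  have h2 : (se (R.ι (j + 1)) f : Tc K E (R.ι (j + 1))) ∈ Ch K (R.ι (j + 1)) (X : Set E) (cl ρ (⊤ : Subgroup K) : Set E) :=
    Ch.mono (le_refl _) (fun y _ => by rw [hcl]; trivial) hXY
  obtain ⟨_, ⟨b, -, rfl⟩, i, hi, hsum⟩ := Submodule.mem_sup.1 (hV X j _ h2 h1)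
  rw [hI] at hi
  refine ⟨co (ten ρ) (R.ι (j + 2)) b, ?_⟩
  have h3 := congrArg (co (ten ρ) (R.ι (j + 1))) hsum
  rw [map_add, co_coin (ten ρ) hi, add_zero, co_se] at h3
  rw [← h3]
  exact (co_d (ten ρ) (R.d (j + 1)) b).symm

/-- transfer to the diagonal action -/
theorem exH_diag [StarRing E] (hs : ∀ g, star ((ρ g : Eˣ) : E) = ((ρ g⁻¹ : Eˣ) : E)) (R : FinRes K) (j : ℕ)
    (h : ExH (ten ρ) R (j + 1)) : ExH (diag ρ) R (j + 1) := by
  intro f hf
  have h1 : bdry (ten ρ) (R.d j) (fun a => st1 E (f a)) = 0 := by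
    rw [bdry_map (diag ρ) (ten ρ) (st1 E) (st1_diag ρ hs), hf]
    funext b
    exact map_zero _
  obtain ⟨e, he⟩ := h _ h1
  refine ⟨fun a => st1 E (e a), ?_⟩
  rw [bdry_map (ten ρ) (diag ρ) (st1 E) (st1_ten ρ hs), he]
  funext b
  exact st1_st1 _

/-- the span of a subgroup -/
abbrev sp (H : Subgroup K) : AddSubgroup E := AddSubgroup.closure ((fun g : K => ((ρ g : Eˣ) : E)) '' (H : Set K))

lemma sp_le_cl (H : Subgroup K) {x : E} (hx : x ∈ sp ρ H) : x ∈ cl ρ H := by
  have h : sp ρ H ≤ (cl ρ H).toAddSubgroup := by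
    rw [AddSubgroup.closure_le]
    rintro _ ⟨g, hg, rfl⟩
    exact mem_cl ρ hg
  exact h hx

/-- the coefficients of the elements of the span -/
lemma kap_sp {H H' : Subgroup K} {t : K} (hgen : ∀ g ∈ H, ∃ n : ℤ, g * t ^ (-n) ∈ H')
    (st : Step (cl ρ H') (cl ρ H) (ρ t)) {x : E} (hx : x ∈ sp ρ H) (u : ℤ) : st.κ x u ∈ sp ρ H' := by
  refine AddSubgroup.closure_induction (p := fun x _ => st.κ x u ∈ sp ρ H') ?_
    (by rw [map_zero]; exact zero_mem _) (fun x y _ _ hx hy => by rw [map_add]; exact add_mem hx hy)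
    (fun x _ hx => by rw [map_neg]; exact neg_mem hx) hx
  rintro _ ⟨g, hg, rfl⟩
  obtain ⟨n, hn⟩ := hgen g hg
  have h1 : ((ρ g : Eˣ) : E) = ((ρ (g * t ^ (-n)) : Eˣ) : E) * ((ρ t ^ n : Eˣ) : E) := by
    rw [← Units.val_mul, ← map_zpow, ← map_mul, mul_assoc, ← zpow_add, neg_add_cancel, zpow_zero, mul_one]
  show st.κ ((ρ g : Eˣ) : E) u ∈ sp ρ H'
  rw [h1, st.mon _ (mem_cl ρ hn) n u]
  split_ifs
  · exact AddSubgroup.subset_closure ⟨_, hn, rfl⟩
  · exact zero_mem _

/-- the division closure of the trivial group is the prime field -/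
lemma cl_bot {x : E} (hx : x ∈ cl ρ (⊥ : Subgroup K)) : x = 0 ∨ x = 1 := by
  have h2 : ∀ y : E, y + y = 0 := by
    intro y
    have h := two_smul (ZMod 2) y
    rw [show (2 : ZMod 2) = 0 from rfl, zero_smul] at h
    exact h.symm
  refine Subfield.closure_induction (p := fun x _ => x = 0 ∨ x = 1) ?_ (Or.inr rfl) ?_ ?_ ?_ ?_ hx
  · rintro _ ⟨g, hg, rfl⟩
    right
    rw [SetLike.mem_coe, Subgroup.mem_bot] at hg
    subst hg
    show ((ρ 1 : Eˣ) : E) = 1
    rw [map_one, Units.val_one]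
  · rintro a b _ _ (rfl | rfl) (rfl | rfl)
    · left; rw [add_zero]
    · right; rw [zero_add]
    · right; rw [add_zero]
    · left; exact h2 1
  · rintro a _ (rfl | rfl)
    · left; rw [neg_zero]
    · right; exact neg_eq_of_add_eq_zero_left (h2 1)
  · rintro a _ (rfl | rfl)
    · left; rw [inv_zero]
    · right; rw [inv_one]
  · rintro a b _ _ (rfl | rfl) (rfl | rfl)
    · left; rw [mul_zero]
    · left; rw [zero_mul]
    · left; rw [mul_zero]
    · right; rw [mul_one]

lemma cl_bot_sp {x : E} (hx : x ∈ cl ρ (⊥ : Subgroup K)) : x ∈ sp ρ (⊥ : Subgroup K) := by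
  rcases cl_bot ρ hx with rfl | rfl
  · exact zero_mem _
  · exact AddSubgroup.subset_closure ⟨1, (⊥ : Subgroup K).one_mem, by show ((ρ 1 : Eˣ) : E) = 1; rw [map_one, Units.val_one]⟩

end gen

end SQ.T3.Tor

namespace SQ.T4

open Singer SQ.T3 SQ.T3.Tor

section fam
variable {K : Type} [Group K] {F : Fil K} {E : Type} [DivisionRing E] [Algebra (ZMod 2) E] {ρ : K →* Eˣ} (S : Sys F ρ)

/-- good finite families -/
inductive GoodF : Subgroup K → Finset E → Prop
  | base {H : Subgroup K} {X : Finset E} : (∀ x ∈ X, x ∈ sp ρ H) → GoodF H X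
  | step {H : Subgroup K} {X : Finset E} : (∀ x ∈ X, x ∈ cl ρ H) →
      (∀ (H' : Subgroup K) (t : K) (h : Adm F H H' t) (Y : Finset E),
        (∀ y ∈ Y, ∃ x ∈ X, ∃ u : ℤ, y = (S.st H H' t h).κ x u) → GoodF H' Y) → GoodF H X

lemma GoodF.cl {H : Subgroup K} {X : Finset E} (h : GoodF S H X) : ∀ x ∈ X, x ∈ T3.cl ρ H := by
  cases h with
  | base h => exact fun x hx => sp_le_cl ρ H (h x hx)
  | step h _ => exact h

/-- coefficients of a good family -/
lemma GoodF.coef {H H' : Subgroup K} {t : K} (h : Adm F H H' t) {X Y : Finset E} (hX : GoodF S H X)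
    (hY : ∀ y ∈ Y, ∃ x ∈ X, ∃ u : ℤ, y = (S.st H H' t h).κ x u) : GoodF S H' Y := by
  cases hX with
  | base hb =>
    refine GoodF.base fun y hy => ?_
    obtain ⟨x, hx, u, rfl⟩ := hY y hy
    exact kap_sp ρ h.gen _ (hb x hx) u
  | step _ hs => exact hs H' t h Y hY

open Classical in
lemma GoodF.mono {H : Subgroup K} {X Y : Finset E} (hX : GoodF S H X) (h : Y ⊆ X) : GoodF S H Y := by
  cases hX with
  | base hb => exact GoodF.base fun y hy => hb y (h hy)
  | step hc hs =>
    refine GoodF.step (fun y hy => hc y (h hy)) fun H' t ha Z hZ => hs H' t ha Z fun z hz => ?_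
    obtain ⟨x, hx, u, hzu⟩ := hZ z hz
    exact ⟨x, h hx, u, hzu⟩

open Classical in
lemma GoodF.union_base {H : Subgroup K} {X : Finset E} (hX : GoodF S H X) : ∀ Z : Finset E, (∀ z ∈ Z, z ∈ sp ρ H) →
    GoodF S H (Z ∪ X) := by
  induction hX with
  | @base H X hb =>
    intro Z hZ
    refine GoodF.base fun x hx => ?_
    rcases Finset.mem_union.1 hx with hx | hx
    · exact hZ x hx
    · exact hb x hx
  | @step H X hc hs ih =>
    intro Z hZ
    refine GoodF.step (fun x hx => ?_) fun H' t ha Y hY => ?_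
    · rcases Finset.mem_union.1 hx with hx | hx
      · exact sp_le_cl ρ H (hZ x hx)
      · exact hc x hx
    · have h1 := ih H' t ha (Y.filter fun y => ∃ x ∈ X, ∃ u : ℤ, y = (S.st H H' t ha).κ x u)
        (fun y hy => (Finset.mem_filter.1 hy).2) (Y.filter fun y => y ∈ sp ρ H') (fun y hy => (Finset.mem_filter.1 hy).2)
      refine GoodF.mono S h1 fun y hy => ?_
      obtain ⟨x, hx, u, rfl⟩ := hY y hy
      rcases Finset.mem_union.1 hx with hx | hx
      · exact Finset.mem_union_left _ (Finset.mem_filter.2 ⟨hy, kap_sp ρ ha.gen _ (hZ x hx) u⟩)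
      · exact Finset.mem_union_right _ (Finset.mem_filter.2 ⟨hy, x, hx, u, rfl⟩)

open Classical in
/-- a good element can be added to a good family -/
lemma GoodF.insert {H : Subgroup K} {x : E} (hx : Good S H x) : ∀ X : Finset E, GoodF S H X → GoodF S H (insert x X) := by
  induction hx with
  | @base H x hb =>
    intro X hX
    have h1 := GoodF.union_base S hX {x} (by simpa using hb)
    refine GoodF.mono S h1 fun y hy => ?_
    rcases Finset.mem_insert.1 hy with rfl | hy
    · exact Finset.mem_union_left _ (Finset.mem_singleton_self _)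
    · exact Finset.mem_union_right _ hy
  | @step H x hc hs ih =>
    intro X hX
    refine GoodF.step (fun y hy => ?_) fun H' t ha Y hY => ?_
    · rcases Finset.mem_insert.1 hy with rfl | hy
      · exact hc
      · exact hX.cl S y hy
    · -- the coefficients of `X` form a good family; add the coefficients of `x` one by one
      have h1 : GoodF S H' (Y.filter fun y => ∃ x ∈ X, ∃ u : ℤ, y = (S.st H H' t ha).κ x u) :=
        GoodF.coef S ha hX fun y hy => (Finset.mem_filter.1 hy).2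
      have h2 : ∀ Z : Finset E, (∀ z ∈ Z, ∃ u : ℤ, z = (S.st H H' t ha).κ x u) →
          GoodF S H' (Z ∪ Y.filter fun y => ∃ x ∈ X, ∃ u : ℤ, y = (S.st H H' t ha).κ x u) := by
        intro Z
        induction Z using Finset.induction_on with
        | empty => intro _; rwa [Finset.empty_union]
        | insert z Z _ ihZ =>
          intro hZ
          obtain ⟨u, rfl⟩ := hZ z (Finset.mem_insert_self _ _)
          rw [Finset.insert_union]
          exact ih H' t ha u _ (ihZ fun z hz => hZ z (Finset.mem_insert_of_mem hz))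
      refine GoodF.mono S (h2 (Y.filter fun y => ∃ u : ℤ, y = (S.st H H' t ha).κ x u)
        fun z hz => (Finset.mem_filter.1 hz).2) fun y hy => ?_
      obtain ⟨z, hz, u, hzu⟩ := hY y hy
      rcases Finset.mem_insert.1 hz with rfl | hz
      · exact Finset.mem_union_left _ (Finset.mem_filter.2 ⟨hy, u, hzu⟩)
      · exact Finset.mem_union_right _ (Finset.mem_filter.2 ⟨hy, z, hz, u, hzu⟩)

/-- finite sets of good elements are good families -/
lemma GoodF.of_good {H : Subgroup K} (X : Finset E) (h : ∀ x ∈ X, Good S H x) : GoodF S H X := by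
  classical
  induction X using Finset.induction_on with
  | empty => exact GoodF.base (by simp)
  | insert x X _ ih =>
    exact GoodF.insert S (h x (Finset.mem_insert_self _ _)) X (ih fun y hy => h y (Finset.mem_insert_of_mem hy))

/-- the induction -/
theorem Va_goodF (hex : ∀ H : Subgroup K, H ≠ ⊥ → ∃ (H' : Subgroup K) (t : K), Adm F H H' t)
    (hli : LinearIndependent (ZMod 2) fun g : K => ((ρ g : Eˣ) : E)) (R : FinRes K) {H : Subgroup K} {X : Finset E}
    (h : GoodF S H X) : Va ρ R H (X : Set E) := by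
  induction h with
  | @base H X hb => exact Va.anti ρ (fun x hx => hb x hx) (Va_zero ρ R hli H)
  | @step H X hc hs ih =>
    by_cases hH : H = ⊥
    · subst hH
      exact Va.anti ρ (fun x hx => cl_bot_sp ρ (hc x hx)) (Va_zero ρ R hli ⊥)
    · obtain ⟨H', t, ha⟩ := hex H hH
      have hV : Va ρ R H' {y : E | ∃ x ∈ X, ∃ u : ℤ, y = (S.st H H' t ha).κ x u} :=
        Va.of_fin ρ fun Y hY => ih H' t ha Y hY
      refine zstep (G' := {y : E | ∃ x ∈ X, ∃ u : ℤ, y = (S.st H H' t ha).κ x u}) ρ R H' H t (S.st H H' t ha) ha.le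
        ha.mem ?_ ha.gen (fun x hx => hc x hx) (fun x hx u => ⟨x, hx, u, rfl⟩) hV
      intro u g hg
      exact ha.conj _ (H.zpow_mem ha.mem u) g hg

end fam

/-- **row Y5** -/
theorem tor : StmtTor := by
  intro K _ F hex E _ _ _ ρ hs hcl hli S hgood R j
  refine exH_diag ρ hs R j (exH_of_Va ρ R hcl (fun X => ?_) j)
  exact Va_goodF S hex hli R (GoodF.of_good S X fun x _ => hgood ⊤ x (by rw [hcl]; trivial))

end SQ.T4
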